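import Mathlib

set_option autoImplicit false

namespace Pool.Agent.Results.MP_308823_co.NotGamma

open Finset Pointwise

/-- The cyclic block polytope. -/
def polytope (m a : ℕ) : Set (ZMod m → Fin a → ℝ) :=
  {x | (∀ i j, 0 ≤ x i j) ∧ ∀ i, ∑ j, x i j + ∑ j, x (i + 1) j ≤ 1}

/-- The number of lattice points of the `q`-th dilate. -/
noncomputable def L (m a q : ℕ) : ℕ :=
  {x : ZMod m → Fin a → ℤ | (fun i j => (x i j : ℝ)) ∈ (q : ℝ) • polytope m a}.ncard

/-- `h` is the rational Ehrhart numerator. -/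
def IsNumerator (m a : ℕ) (h : Polynomial ℤ) : Prop :=
  (PowerSeries.mk fun q => (L m a q : ℤ)) * (1 - PowerSeries.X ^ 2) ^ (a * m + 1) =
    (h : PowerSeries ℤ)

/-- Gamma-nonnegative polynomials. -/
def GammaNonneg (h : Polynomial ℤ) : Prop :=
  ∃ γ : ℕ → ℝ, (∀ j, 0 ≤ γ j) ∧ h.map (Int.castRingHom ℝ) = ∑ j ∈ range (h.natDegree / 2 + 1),
    Polynomial.C (γ j) * Polynomial.X ^ j * (1 + Polynomial.X) ^ (h.natDegree - 2 * j)

def T (q : ℕ) : Finset (ℕ × ℕ) := {p ∈ range (q + 1) ×ˢ range (q + 1) | p.1 + p.2 ≤ q}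

def A (q : ℕ) : Finset (ℕ × ℕ × ℕ) := {p ∈ range (q + 1) ×ˢ range (q + 1) ×ˢ range (q + 1) |
  p.1 + p.2.1 ≤ q ∧ p.2.1 + p.2.2 ≤ q ∧ p.2.2 + p.1 ≤ q}

theorem mT (q : ℕ) (p : ℕ × ℕ) : p ∈ T q ↔ p.1 + p.2 ≤ q := by simp [T]; omega

theorem mA (q : ℕ) (p : ℕ × ℕ × ℕ) :
    p ∈ A q ↔ p.1 + p.2.1 ≤ q ∧ p.2.1 + p.2.2 ≤ q ∧ p.2.2 + p.1 ≤ q := by simp [A]; omega

theorem cT (q : ℕ) : #(T q) = (2 + q).choose 2 := by
  induction q with
  | zero => rfl
  | succ q ih =>
    have : T (q + 1) = (T q).image (fun p => (p.1 + 1, p.2)) ∪ (range (q + 2)).image (0, ·) := by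
      ext ⟨x, y⟩
      cases x <;> simp [mT] <;> omega
    rw [this, card_union_of_disjoint (disjoint_left.mpr (by grind)), card_image_of_injective _
      (fun _ _ => by simp [Prod.ext_iff]), card_image_of_injective _ (fun _ _ => by simp), ih,
      ← add_assoc, Nat.choose_succ_succ' (2 + q)]
    simp; omega

theorem cA (q : ℕ) : #(A (q + 2)) = #(A q) + (#(T (q + 2)) + (#(T (q + 1)) + #(T q))) := by
  have : A (q + 2) = (A q).image (fun p => (p.1 + 1, p.2.1 + 1, p.2.2 + 1)) ∪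
      ((T (q + 2)).image (0, ·) ∪ ((T (q + 1)).image (fun p => (p.1 + 1, 0, p.2)) ∪
      (T q).image fun p => (p.1 + 1, p.2 + 1, 0))) := by
    ext ⟨x, y, z⟩
    cases x <;> cases y <;> cases z <;> simp [mT, mA] <;> omega
  rw [this, card_union_of_disjoint, card_union_of_disjoint, card_union_of_disjoint,
    card_image_of_injective, card_image_of_injective, card_image_of_injective,
    card_image_of_injective]
  all_goals first | exact disjoint_left.mpr (by grind) | (intro _ _; simp [Prod.ext_iff])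

theorem cL (q : ℕ) : L 3 1 q = #(A q) := by
  have m : ∀ x : ZMod 3 → Fin 1 → ℝ, x ∈ (q : ℝ) • polytope 3 1 ↔
      (∀ i, 0 ≤ x i 0) ∧ ∀ i, x i 0 + x (i + 1) 0 ≤ q := fun x => by
    rcases q.eq_zero_or_pos with rfl | h
    · rw [Nat.cast_zero, Set.zero_smul_set ⟨0, by simp [polytope]⟩, Set.mem_zero]
      refine ⟨fun h => by simp [h], fun ⟨a, b⟩ => funext fun i => funext fun j => ?_⟩
      rw [Fin.fin_one_eq_zero j]
      exact le_antisymm (show x i 0 ≤ 0 by linarith [b i, a (i + 1)]) (a i)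
    · have : (0 : ℝ) < q := by exact_mod_cast h
      rw [Set.mem_smul_set_iff_inv_smul_mem₀ this.ne']
      simp [polytope, this, ← mul_add, inv_mul_le_iff₀]
  rw [L, ← Set.ncard_coe_finset]
  refine Set.ncard_congr (fun x _ => ((x 0 0).toNat, (x 1 0).toNat, (x 2 0).toNat)) ?_ ?_ ?_
  · intro x h
    obtain ⟨a, b⟩ := (m _).mp h
    norm_cast at a b
    have := a 0; have := a 1; have := a 2
    have : x 0 0 + x 1 0 ≤ q := b 0
    have : x 1 0 + x 2 0 ≤ q := b 1
    have : x 2 0 + x 0 0 ≤ q := b 2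
    simp only [mem_coe, mA]
    omega
  · intro x y h g e
    have a := ((m _).mp h).1
    have b := ((m _).mp g).1
    norm_cast at a b
    simp only [Prod.ext_iff] at e
    ext i j
    rw [Fin.fin_one_eq_zero j]
    have := a i; have := b i
    fin_cases i
    · show x 0 0 = y 0 0; have := a 0; have := b 0; omega
    · show x 1 0 = y 1 0; have := a 1; have := b 1; omega
    · show x 2 0 = y 2 0; have := a 2; have := b 2; omega
  · rintro ⟨x, y, z⟩ h
    obtain ⟨a, b, c⟩ := (mA _ _).mp h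
    refine ⟨fun i _ => (![x, y, z] i : ℕ), (m _).mpr ⟨fun i => by positivity, fun i => ?_⟩, rfl⟩
    dsimp only
    norm_cast
    fin_cases i
    exacts [a, b, c]

open Polynomial in
theorem result : ∃ a m, 1 ≤ a ∧ 3 ≤ m ∧ Odd m ∧ ∃ h, IsNumerator m a h ∧ ¬ GammaNonneg h := by
  refine ⟨1, 3, le_rfl, le_rfl, by decide, (1 + X + X ^ 2) * (1 + X) ^ 3, ?_, fun ⟨γ, a, b⟩ => ?_⟩
  · have a := PowerSeries.mk_add_choose_mul_one_sub_pow_eq_one ℤ 2
    have b : (PowerSeries.mk fun q => (L 3 1 q : ℤ)) * (1 - PowerSeries.X ^ 2) =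
        (PowerSeries.mk fun n => ((2 + n).choose 2 : ℤ)) *
          (1 + PowerSeries.X + PowerSeries.X ^ 2) := by
      ext q
      simp only [mul_sub, mul_add, mul_one, map_add, map_sub, PowerSeries.coeff_mul_X_pow',
        PowerSeries.coeff_mk, cL, ← cT]
      rcases q with _ | _ | q
      · simp; rfl
      · simp; rfl
      · simp [cA, add_assoc]
    unfold IsNumerator
    push_cast
    linear_combination (1 - PowerSeries.X ^ 2) ^ 3 * b +
      (1 + PowerSeries.X + PowerSeries.X ^ 2) * (1 + PowerSeries.X) ^ 3 * a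
  · rw [show ((1 + X + X ^ 2) * (1 + X) ^ 3 : ℤ[X]).natDegree = 5 by compute_degree!] at b
    have c := congrArg (eval 0) b
    have d := congrArg (eval 0 ∘ derivative) b
    simp [sum_range_succ, derivative_pow] at c d
    linarith [a 1]

end Pool.Agent.Results.MP_308823_co.NotGamma
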